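import Pool.Agent.H78.KL.G2a
import Pool.Agent.H29.KL.Bad
import Pool.Agent.H29.KL.Pts

/-!
# Kazhdan–Lusztig ideals: from the chart `u s` to the chart `u`
-/

set_option autoImplicit false

namespace Pool.Agent.H78.KL

open Pool.Agent.H30.KL Module

variable {n : ℕ}

/-- rank conditions of `v` -/
def RC (v : Equiv.Perm (Fin n)) (M : Matrix (Fin n) (Fin n) ℂ) : Prop :=
  ∀ i j, finrank ℂ (cs (fun c r => M r c) i (Set.Iic j)) ≤ rk v i j

/-- the number of `k < a` with `i ≤ v k` -/
def rho (v : Equiv.Perm (Fin n)) (a i : Fin n) : ℕ :=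
  (Finset.univ.filter fun k => k < a ∧ i ≤ v k).card

theorem rk_eq_rho (v : Equiv.Perm (Fin n)) (i a : Fin n) :
    rk v i a = rho v a i + (if i ≤ v a then 1 else 0) := by
  classical
  unfold rk rho
  have h : (Finset.univ.filter fun k => k ≤ a ∧ i ≤ v k) =
      (Finset.univ.filter fun k => k < a ∧ i ≤ v k) ∪ (if i ≤ v a then {a} else ∅) := by
    ext k
    simp only [Finset.mem_filter, Finset.mem_univ, true_and, Finset.mem_union]
    by_cases h1 : i ≤ v a
    · rw [if_pos h1, Finset.mem_singleton]
      constructor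
      · rintro ⟨h2, h3⟩
        rcases eq_or_lt_of_le h2 with h4 | h4
        · exact Or.inr h4
        · exact Or.inl ⟨h4, h3⟩
      · rintro (⟨h2, h3⟩ | rfl)
        · exact ⟨h2.le, h3⟩
        · exact ⟨le_rfl, h1⟩
    · rw [if_neg h1]
      constructor
      · rintro ⟨h2, h3⟩
        rcases eq_or_lt_of_le h2 with h4 | h4
        · subst h4; exact absurd h3 h1
        · exact Or.inl ⟨h4, h3⟩
      · rintro (⟨h2, h3⟩ | h2)
        · exact ⟨h2.le, h3⟩
        · exact absurd h2 (Finset.notMem_empty k)
  rw [h, Finset.card_union_of_disjoint]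
  · congr 1
    by_cases h1 : i ≤ v a
    · rw [if_pos h1, if_pos h1, Finset.card_singleton]
    · rw [if_neg h1, if_neg h1, Finset.card_empty]
  · rw [Finset.disjoint_left]
    intro k hk hk'
    rw [Finset.mem_filter] at hk
    by_cases h1 : i ≤ v a
    · rw [if_pos h1, Finset.mem_singleton] at hk'
      exact hk.2.1.ne hk'
    · rw [if_neg h1] at hk'
      exact absurd hk' (Finset.notMem_empty k)

theorem lt_succ_iff {a a' c : Fin n} (h : (a' : ℕ) = a + 1) : c < a' ↔ c < a ∨ c = a := by
  rw [Fin.lt_def, Fin.lt_def, Fin.ext_iff]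
  omega

theorem rho_succ (v : Equiv.Perm (Fin n)) {a a' : Fin n} (h : (a' : ℕ) = a + 1) (i : Fin n) :
    rho v a' i = rk v i a := by
  unfold rk rho
  congr 1
  ext k
  simp only [Finset.mem_filter, Finset.mem_univ, true_and]
  have : k < a' ↔ k ≤ a := by rw [Fin.lt_def, Fin.le_def]; omega
  rw [this]

theorem swap_apply_lt {a a' k : Fin n} (h : (a' : ℕ) = a + 1) (hk : k < a) :
    Equiv.swap a a' k = k := by
  refine Equiv.swap_apply_of_ne_of_ne hk.ne ?_
  intro h1
  rw [h1, Fin.lt_def] at hk
  omega

theorem swap_apply_gt {a a' k : Fin n} (h : (a' : ℕ) = a + 1) (hk : a' < k) :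
    Equiv.swap a a' k = k := by
  refine Equiv.swap_apply_of_ne_of_ne ?_ hk.ne'
  intro h1
  rw [h1, Fin.lt_def] at hk
  omega

theorem rho_swap (v : Equiv.Perm (Fin n)) {a a' : Fin n} (h : (a' : ℕ) = a + 1) (i : Fin n) :
    rho (v * Equiv.swap a a') a i = rho v a i := by
  unfold rho
  congr 1
  ext k
  simp only [Finset.mem_filter, Finset.mem_univ, true_and]
  refine and_congr_right fun hk => ?_
  rw [Equiv.Perm.mul_apply, swap_apply_lt h hk]

theorem rk_swap (v : Equiv.Perm (Fin n)) {a a' : Fin n} (h : (a' : ℕ) = a + 1) (i j : Fin n)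
    (hj : j ≠ a) : rk (v * Equiv.swap a a') i j = rk v i j := by
  classical
  unfold rk
  refine Finset.card_bij (fun k _ => Equiv.swap a a' k) ?_ ?_ ?_
  · intro k hk
    simp only [Finset.mem_filter, Finset.mem_univ, true_and, Equiv.Perm.mul_apply] at hk ⊢
    refine ⟨?_, hk.2⟩
    by_cases h1 : k = a
    · subst h1
      rw [Equiv.swap_apply_left, Fin.le_def]
      have h2 := hk.1
      have h3 : (j : ℕ) ≠ k := fun h4 => hj (Fin.ext h4)
      rw [Fin.le_def] at h2
      omega
    · by_cases h2 : k = a'
      · subst h2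
        rw [Equiv.swap_apply_right, Fin.le_def]
        have h2 := hk.1
        rw [Fin.le_def] at h2
        omega
      · rw [Equiv.swap_apply_of_ne_of_ne h1 h2]
        exact hk.1
  · intro k _ k' _ hkk
    exact (Equiv.swap a a').injective hkk
  · intro k hk
    simp only [Finset.mem_filter, Finset.mem_univ, true_and] at hk
    refine ⟨Equiv.swap a a' k, ?_, Equiv.swap_apply_self a a' k⟩
    simp only [Finset.mem_filter, Finset.mem_univ, true_and, Equiv.Perm.mul_apply,
      Equiv.swap_apply_self]
    refine ⟨?_, hk.2⟩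
    by_cases h1 : k = a
    · subst h1
      rw [Equiv.swap_apply_left, Fin.le_def]
      have h2 := hk.1
      have h3 : (j : ℕ) ≠ k := fun h4 => hj (Fin.ext h4)
      rw [Fin.le_def] at h2
      omega
    · by_cases h2 : k = a'
      · subst h2
        rw [Equiv.swap_apply_right, Fin.le_def]
        have h2 := hk.1
        rw [Fin.le_def] at h2
        omega
      · rw [Equiv.swap_apply_of_ne_of_ne h1 h2]
        exact hk.1

theorem RC_rho {v : Equiv.Perm (Fin n)} {M : Matrix (Fin n) (Fin n) ℂ} (h : RC v M)
    (a i : Fin n) : finrank ℂ (cs (fun c r => M r c) i (Set.Iio a)) ≤ rho v a i := by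
  by_cases h0 : (a : ℕ) = 0
  · have h1 : Set.Iio a = ∅ := by
      ext k
      simp only [Set.mem_Iio, Set.mem_empty_iff_false, iff_false, Fin.lt_def]
      omega
    rw [h1]
    unfold cs
    rw [Set.image_empty, Submodule.span_empty, finrank_bot]
    exact Nat.zero_le _
  · have hlt : (a : ℕ) - 1 < n := lt_of_le_of_lt (Nat.sub_le _ _) a.2
    have h1 : (a : ℕ) = ((⟨(a : ℕ) - 1, hlt⟩ : Fin n) : ℕ) + 1 := by
      simp only
      omega
    have h2 : Set.Iio a = Set.Iic (⟨(a : ℕ) - 1, hlt⟩ : Fin n) := by
      ext k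
      rw [Set.mem_Iio, Set.mem_Iic, Fin.lt_def, Fin.le_def]
      simp only
      omega
    rw [h2, rho_succ v h1]
    exact h _ _

theorem Iic_eq_insert (a : Fin n) : Set.Iic a = insert a (Set.Iio a) := by
  ext k
  rw [Set.mem_insert_iff, Set.mem_Iic, Set.mem_Iio, le_iff_eq_or_lt]

theorem Iic_succ_eq {a a' : Fin n} (h : (a' : ℕ) = a + 1) :
    Set.Iic a' = insert a' (insert a (Set.Iio a)) := by
  ext k
  rw [Set.mem_insert_iff, Set.mem_insert_iff, Set.mem_Iic, Set.mem_Iio, Fin.le_def, Fin.lt_def,
    Fin.ext_iff, Fin.ext_iff]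
  omega

/-- the rank conditions after the change of the columns `a`, `a' = a + 1` -/
theorem RC_of_change {v v' : Equiv.Perm (Fin n)} {a a' : Fin n} (h : (a' : ℕ) = a + 1)
    {M N : Matrix (Fin n) (Fin n) ℂ} (hM : RC v' M)
    (hv : ∀ i j, j ≠ a → rk v i j = rk v' i j)
    (hcol : ∀ r c, c ≠ a → c ≠ a' → N r c = M r c) (z : ℂ)
    (ha : ∀ r, N r a = M r a' + z * M r a) (ha' : ∀ r, N r a' = M r a)
    (hk : ∀ i, finrank ℂ (cs (fun c r => M r c) i (Set.Iio a) ⊔
      Submodule.span ℂ {trc i ((fun r => M r a') + z • fun r => M r a)} :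
        Submodule ℂ (Fin n → ℂ)) ≤ rk v i a) : RC v N := by
  classical
  intro i j
  have hA : (fun r => N r a) = (fun r => M r a') + z • fun r => M r a := by
    funext r
    rw [ha]
    rfl
  have hlow : cs (fun c r => N r c) i (Set.Iio a) = cs (fun c r => M r c) i (Set.Iio a) := by
    refine cs_congr i fun c hc => funext fun r => hcol r c ?_ ?_
    · exact (Set.mem_Iio.1 hc).ne
    · intro h1
      rw [h1, Set.mem_Iio, Fin.lt_def] at hc
      omega
  rcases lt_trichotomy j a with hj | hj | hj
  · have h1 : cs (fun c r => N r c) i (Set.Iic j) = cs (fun c r => M r c) i (Set.Iic j) := by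
      refine cs_congr i fun c hc => funext fun r => hcol r c ?_ ?_
      · exact (lt_of_le_of_lt (Set.mem_Iic.1 hc) hj).ne
      · intro h1
        have h2 := lt_of_le_of_lt (Set.mem_Iic.1 hc) hj
        rw [h1, Fin.lt_def] at h2
        omega
    rw [h1, hv i j hj.ne]
    exact hM i j
  · subst hj
    rw [Iic_eq_insert, cs_insert, hlow, hA]
    exact hk i
  · have h1 : cs (fun c r => N r c) i (Set.Iic j) = cs (fun c r => M r c) i (Set.Iic j) := by
      have hset : Set.Iic j = insert a' (insert a (Set.Iic j \ {a, a'})) := by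
        ext k
        rw [Set.mem_insert_iff, Set.mem_insert_iff, Set.mem_sdiff, Set.mem_insert_iff,
          Set.mem_singleton_iff, Set.mem_Iic]
        rw [Fin.lt_def] at hj
        constructor
        · intro h2
          by_cases h3 : k = a
          · exact Or.inr (Or.inl h3)
          · by_cases h4 : k = a'
            · exact Or.inl h4
            · exact Or.inr (Or.inr ⟨h2, fun h5 => h5.elim h3 h4⟩)
        · rintro (h2 | h2 | h2)
          · rw [h2, Fin.le_def]; omega
          · rw [h2, Fin.le_def]; omega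
          · exact h2.1
      have hrest : cs (fun c r => N r c) i (Set.Iic j \ {a, a'}) =
          cs (fun c r => M r c) i (Set.Iic j \ {a, a'}) := by
        refine cs_congr i fun c hc => funext fun r => hcol r c ?_ ?_
        · exact fun h2 => hc.2 (Or.inl h2)
        · exact fun h2 => hc.2 (Or.inr h2)
      have hA' : (fun r => N r a') = fun r => M r a := funext ha'
      rw [hset, cs_insert, cs_insert, cs_insert, cs_insert, hrest]
      simp only [hA, hA']
      set U := cs (fun c r => M r c) i (Set.Iic j \ {a, a'})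
      set A : Fin n → ℂ := fun r => M r a
      set B : Fin n → ℂ := fun r => M r a'
      apply le_antisymm
      · refine sup_le (sup_le (le_sup_of_le_left le_sup_left) ?_) ?_
        · rw [Submodule.span_singleton_le_iff_mem, map_add, map_smul]
          refine Submodule.add_mem _ ?_ (Submodule.smul_mem _ _ ?_)
          · exact Submodule.mem_sup_right (Submodule.mem_span_singleton_self _)
          · exact Submodule.mem_sup_left (Submodule.mem_sup_right
              (Submodule.mem_span_singleton_self _))
        · rw [Submodule.span_singleton_le_iff_mem]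
          exact Submodule.mem_sup_left (Submodule.mem_sup_right
            (Submodule.mem_span_singleton_self _))
      · refine sup_le (sup_le (le_sup_of_le_left le_sup_left) ?_) ?_
        · rw [Submodule.span_singleton_le_iff_mem]
          exact Submodule.mem_sup_right (Submodule.mem_span_singleton_self _)
        · rw [Submodule.span_singleton_le_iff_mem]
          have h2 : trc i B = trc i (B + z • A) - z • trc i A := by
            rw [map_add, map_smul, add_sub_cancel_right]
          rw [h2]
          refine Submodule.sub_mem _ ?_ (Submodule.smul_mem _ _ ?_)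
          · exact Submodule.mem_sup_left (Submodule.mem_sup_right
              (Submodule.mem_span_singleton_self _))
          · exact Submodule.mem_sup_right (Submodule.mem_span_singleton_self _)
    rw [h1, hv i j hj.ne']
    exact hM i j

/-- **The rank argument.** -/
theorem g2_core {v : Equiv.Perm (Fin n)} {a a' : Fin n} (h : (a' : ℕ) = a + 1)
    {M : Matrix (Fin n) (Fin n) ℂ}
    (hM : RC (if v a < v a' then v * Equiv.swap a a' else v) M) :
    (∃ z : ℂ, ∀ N : Matrix (Fin n) (Fin n) ℂ, (∀ r c, c ≠ a → c ≠ a' → N r c = M r c) →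
      (∀ r, N r a = M r a' + z * M r a) → (∀ r, N r a' = M r a) → RC v N) ∨ RC v M := by
  classical
  by_cases hv : v a < v a'
  · rw [if_pos hv] at hM
    have hU : ∀ i, finrank ℂ (cs (fun c r => M r c) i (Set.Iio a)) ≤ rho v a i := by
      intro i
      have h1 := RC_rho hM a i
      rwa [rho_swap v h] at h1
    have hAB : ∀ i, finrank ℂ (cs (fun c r => M r c) i (Set.Iio a) ⊔
        Submodule.span ℂ {trc i (fun r => M r a)} ⊔ Submodule.span ℂ {trc i (fun r => M r a')} :
          Submodule ℂ (Fin n → ℂ)) ≤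
        rho v a i + (if i ≤ v a then 1 else 0) + (if i ≤ v a' then 1 else 0) := by
      intro i
      have h1 := hM i a'
      have hne : a' ≠ a := by
        intro h2
        rw [h2] at h
        omega
      rw [rk_swap v h i a' hne, rk_eq_rho, rho_succ v h, rk_eq_rho, Iic_succ_eq h, cs_insert,
        cs_insert] at h1
      exact h1
    rcases choice (fun c r => M r c) (Set.Iio a) (fun r => M r a) (fun r => M r a')
      (rho v a) (v a) (v a') hU hAB with ⟨z, hz⟩ | hz
    · refine Or.inl ⟨z, fun N hc ha ha' => ?_⟩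
      refine RC_of_change h hM (fun i j hj => (rk_swap v h i j hj).symm) hc z ha ha' fun i => ?_
      rw [rk_eq_rho]
      exact hz i
    · refine Or.inr fun i j => ?_
      by_cases hj : j = a
      · subst hj
        rw [Iic_eq_insert, cs_insert, rk_eq_rho]
        exact hz i
      · rw [← rk_swap v h i j hj]
        exact hM i j
  · rw [if_neg hv] at hM
    exact Or.inr hM

/-! ### the form with `XV` and `Zp` -/

open Pool.Agent.H29.KL

theorem rank_trunc (M : Matrix (Fin n) (Fin n) ℂ) (i j : Fin n) :
    (trunc i j M).rank = finrank ℂ (cs (fun c r => M r c) i (Set.Iic j)) := by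
  have hs : Submodule.span ℂ (Set.range (trunc i j M).col) =
      cs (fun c r => M r c) i (Set.Iic j) := by
    unfold cs
    apply le_antisymm
    · rw [Submodule.span_le]
      rintro _ ⟨c, rfl⟩
      by_cases hc : c ≤ j
      · have h1 : (trunc i j M).col c = trc i (fun r => M r c) := by
          funext r
          change (if i ≤ r ∧ c ≤ j then M r c else 0) = if i ≤ r then M r c else 0
          by_cases hr : i ≤ r
          · rw [if_pos ⟨hr, hc⟩, if_pos hr]
          · rw [if_neg (fun h => hr h.1), if_neg hr]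
        rw [h1]
        exact Submodule.subset_span ⟨c, hc, rfl⟩
      · have h1 : (trunc i j M).col c = 0 := by
          funext r
          change (if i ≤ r ∧ c ≤ j then M r c else 0) = 0
          exact if_neg (fun h => hc h.2)
        rw [h1]
        exact Submodule.zero_mem _
    · rw [Submodule.span_le]
      rintro _ ⟨c, hc, rfl⟩
      refine Submodule.subset_span ⟨c, ?_⟩
      funext r
      change (if i ≤ r ∧ c ≤ j then M r c else 0) = if i ≤ r then M r c else 0
      by_cases hr : i ≤ r
      · rw [if_pos ⟨hr, Set.mem_Iic.1 hc⟩, if_pos hr]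
      · rw [if_neg (fun h => hr h.1), if_neg hr]
  rw [Matrix.rank_eq_finrank_span_cols, hs]

theorem XV_iff (v : Equiv.Perm (Fin n)) (M : Matrix (Fin n) (Fin n) ℂ) : XV v M ↔ RC v M := by
  unfold XV RC
  simp only [rank_trunc]

theorem Zp_of_cell {u : Equiv.Perm (Fin n)} {ξ : Fin n → Fin n → ℂ} {r c : Fin n}
    (h : Cell u r c) (hr : r ≠ u c) : Zp u ξ r c = ξ r (u c) := by
  have h1 : u c < r ∧ c < u.symm r := by
    refine ⟨lt_of_le_of_ne h.1 (Ne.symm hr), lt_of_le_of_ne h.2 fun h2 => hr ?_⟩
    rw [h2, Equiv.apply_symm_apply]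
  unfold Zp
  rw [if_pos h1]

theorem Zp_one {u : Equiv.Perm (Fin n)} {ξ : Fin n → Fin n → ℂ} {r c : Fin n}
    (hr : r = u c) : Zp u ξ r c = 1 := by
  unfold Zp
  rw [if_neg (fun h => h.1.ne hr.symm), if_pos hr.symm]

theorem Zp_zero {u : Equiv.Perm (Fin n)} {ξ : Fin n → Fin n → ℂ} {r c : Fin n}
    (h : ¬ Cell u r c) : Zp u ξ r c = 0 := by
  unfold Zp
  rw [if_neg (fun h1 => h ⟨h1.1.le, h1.2.le⟩), if_neg]
  intro h1
  apply h
  rw [← h1]
  exact ⟨le_rfl, by rw [Equiv.symm_apply_apply]⟩

/-- **G2.** -/
theorem g2geo {u v : Equiv.Perm (Fin n)} {a a' : Fin n} (h : LA u a a') (ξ : Fin n → Fin n → ℂ)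
    (hX : XV (dem v a a') (Zp (u * Equiv.swap a a') ξ)) :
    (∃ z : ℂ, XV v (Zp u (upd ξ (u a') (u a) z))) ∨ XV v (Zp (u * Equiv.swap a a') ξ) := by
  rw [XV_iff] at hX
  rcases g2_core h.succ (v := v) hX with ⟨z, hz⟩ | h1
  · refine Or.inl ⟨z, ?_⟩
    rw [XV_iff]
    refine hz _ ?_ ?_ ?_
    · -- other columns
      intro r c hc hc'
      have hus := h.us_ne hc hc'
      by_cases hcell : Cell u r c
      · have hcell' := (h.cell_other hc hc').2 hcell
        by_cases hr : r = u c
        · rw [Zp_one hr, Zp_one (by rw [hus]; exact hr)]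
        · rw [Zp_of_cell hcell hr, Zp_of_cell hcell' (by rw [hus]; exact hr), hus]
          unfold upd
          refine if_neg fun h2 => hc (u.injective h2.2)
      · have hcell' : ¬ Cell (u * Equiv.swap a a') r c := fun h2 =>
          hcell ((h.cell_other hc hc').1 h2)
        rw [Zp_zero hcell, Zp_zero hcell']
    · -- column `a`
      intro r
      by_cases hr' : r = u a'
      · subst hr'
        have e1 : Zp u (upd ξ (u a') (u a) z) (u a') a = z := by
          rw [Zp_of_cell h.cell_aa' h.asc.ne']
          unfold upd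
          exact if_pos ⟨rfl, rfl⟩
        have e2 : Zp (u * Equiv.swap a a') ξ (u a') a' = 0 :=
          Zp_zero fun h2 => (h.cell_a'.1 h2).2 rfl
        have e3 : Zp (u * Equiv.swap a a') ξ (u a') a = 1 := Zp_one h.us_a.symm
        rw [e1, e2, e3, mul_one, zero_add]
      · have e3 : Zp (u * Equiv.swap a a') ξ r a = 0 :=
          Zp_zero fun h2 => hr' (h.cell_a.1 h2)
        rw [e3, mul_zero, add_zero]
        by_cases hcell : Cell u r a
        · have hcell' : Cell (u * Equiv.swap a a') r a' := h.cell_a'.2 ⟨hcell, hr'⟩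
          by_cases hr : r = u a
          · rw [Zp_one hr, Zp_one (by rw [h.us_a']; exact hr)]
          · rw [Zp_of_cell hcell hr, Zp_of_cell hcell' (by rw [h.us_a']; exact hr), h.us_a']
            unfold upd
            exact if_neg fun h2 => hr' h2.1
        · rw [Zp_zero hcell, Zp_zero fun h2 => hcell (h.cell_a'.1 h2).1]
    · -- column `a'`
      intro r
      by_cases hr' : r = u a'
      · rw [Zp_one hr', Zp_one (by rw [h.us_a]; exact hr')]
      · have e1 : ¬ Cell u r a' := fun h2 => hr' ((h.cell_right h.lt).1 h2)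
        have e2 : ¬ Cell (u * Equiv.swap a a') r a := fun h2 => hr' (h.cell_a.1 h2)
        rw [Zp_zero e1, Zp_zero e2]
  · exact Or.inr ((XV_iff v _).2 h1)

end Pool.Agent.H78.KL
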