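import Pool.Agent.H30.KL.Defs

/-!
# Kazhdan–Lusztig ideals: exchange of two columns (rank argument)
-/

set_option autoImplicit false

namespace Pool.Agent.H78.KL

open Pool.Agent.H30.KL Module

variable {n : ℕ}

/-- truncation to the rows `≥ i` -/
def trc (i : Fin n) : (Fin n → ℂ) →ₗ[ℂ] (Fin n → ℂ) where
  toFun x r := if i ≤ r then x r else 0
  map_add' x y := by
    funext r
    by_cases h : i ≤ r <;> simp [h]
  map_smul' c x := by
    funext r
    by_cases h : i ≤ r <;> simp [h]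

theorem trc_apply (i : Fin n) (x : Fin n → ℂ) (r : Fin n) :
    trc i x r = if i ≤ r then x r else 0 := rfl

theorem trc_trc {i i' : Fin n} (h : i ≤ i') (x : Fin n → ℂ) : trc i' (trc i x) = trc i' x := by
  funext r
  simp only [trc_apply]
  by_cases h1 : i' ≤ r
  · rw [if_pos h1, if_pos h1, if_pos (h.trans h1)]
  · rw [if_neg h1, if_neg h1]

/-- span of the truncated columns in `J` -/
def cs (w : Fin n → Fin n → ℂ) (i : Fin n) (J : Set (Fin n)) : Submodule ℂ (Fin n → ℂ) :=
  Submodule.span ℂ ((fun c => trc i (w c)) '' J)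

theorem cs_map (w : Fin n → Fin n → ℂ) {i i' : Fin n} (h : i ≤ i') (J : Set (Fin n)) :
    (cs w i J).map (trc i') = cs w i' J := by
  unfold cs
  rw [Submodule.map_span, Set.image_image]
  simp only [trc_trc h]

theorem cs_mono (w : Fin n → Fin n → ℂ) (i : Fin n) {J J' : Set (Fin n)} (h : J ⊆ J') :
    cs w i J ≤ cs w i J' := Submodule.span_mono (Set.image_mono h)

theorem cs_insert (w : Fin n → Fin n → ℂ) (i : Fin n) (J : Set (Fin n)) (a : Fin n) :
    cs w i (insert a J) = cs w i J ⊔ Submodule.span ℂ {trc i (w a)} := by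
  unfold cs
  rw [Set.image_insert_eq, Submodule.span_insert, sup_comm]

theorem cs_congr {w w' : Fin n → Fin n → ℂ} (i : Fin n) {J : Set (Fin n)}
    (h : ∀ c ∈ J, w c = w' c) : cs w i J = cs w' i J := by
  unfold cs
  congr 1
  refine Set.image_congr fun c hc => ?_
  rw [h c hc]

theorem finrank_sup_span (U : Submodule ℂ (Fin n → ℂ)) (x : Fin n → ℂ) :
    finrank ℂ (U ⊔ Submodule.span ℂ {x} : Submodule ℂ (Fin n → ℂ)) ≤ finrank ℂ U + 1 := by
  have h1 := Submodule.finrank_add_le_finrank_add_finrank U (Submodule.span ℂ {x})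
  have h2 : finrank ℂ (Submodule.span ℂ {x}) ≤ 1 := by
    have h3 := finrank_span_le_card (R := ℂ) ({x} : Set (Fin n → ℂ))
    simpa using h3
  omega

theorem sup_span_of_mem {U : Submodule ℂ (Fin n → ℂ)} {x : Fin n → ℂ} (h : x ∈ U) :
    U ⊔ Submodule.span ℂ {x} = U :=
  sup_eq_left.2 ((Submodule.span_singleton_le_iff_mem x U).2 h)

theorem finrank_sup_span_not {U : Submodule ℂ (Fin n → ℂ)} {x : Fin n → ℂ} (h : x ∉ U) :
    finrank ℂ U + 1 ≤ finrank ℂ (U ⊔ Submodule.span ℂ {x} : Submodule ℂ (Fin n → ℂ)) := by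
  have h1 : U < U ⊔ Submodule.span ℂ {x} := by
    refine lt_of_le_of_ne le_sup_left fun h2 => h ?_
    rw [h2]
    exact Submodule.mem_sup_right (Submodule.mem_span_singleton_self x)
  exact Submodule.finrank_lt_finrank_of_lt h1

/-- two vectors, rank at most one modulo `U` -/
theorem two_vec {U : Submodule ℂ (Fin n → ℂ)} {A B : Fin n → ℂ}
    (h : finrank ℂ (U ⊔ Submodule.span ℂ {A} ⊔ Submodule.span ℂ {B} :
      Submodule ℂ (Fin n → ℂ)) ≤ finrank ℂ U + 1) : A ∈ U ∨ ∃ z : ℂ, B + z • A ∈ U := by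
  by_cases hA : A ∈ U
  · exact Or.inl hA
  right
  have h1 := finrank_sup_span_not hA
  have h2 : U ⊔ Submodule.span ℂ {A} = U ⊔ Submodule.span ℂ {A} ⊔ Submodule.span ℂ {B} :=
    Submodule.eq_of_le_of_finrank_le le_sup_left (h.trans h1)
  have h3 : B ∈ U ⊔ Submodule.span ℂ {A} := by
    rw [h2]
    exact Submodule.mem_sup_right (Submodule.mem_span_singleton_self B)
  obtain ⟨x, hx, y, hy, hxy⟩ := Submodule.mem_sup.1 h3
  obtain ⟨c, rfl⟩ := Submodule.mem_span_singleton.1 hy
  refine ⟨-c, ?_⟩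
  rw [← hxy, neg_smul, add_neg_cancel_right]
  exact hx

/-- **The choice of the new column.** -/
theorem choice (w : Fin n → Fin n → ℂ) (J : Set (Fin n)) (A B : Fin n → ℂ) (ρ : Fin n → ℕ)
    (p q : Fin n) (hU : ∀ i, finrank ℂ (cs w i J) ≤ ρ i)
    (hAB : ∀ i, finrank ℂ (cs w i J ⊔ Submodule.span ℂ {trc i A} ⊔ Submodule.span ℂ {trc i B} :
      Submodule ℂ (Fin n → ℂ)) ≤ ρ i + (if i ≤ p then 1 else 0) + (if i ≤ q then 1 else 0)) :
    (∃ z : ℂ, ∀ i, finrank ℂ (cs w i J ⊔ Submodule.span ℂ {trc i (B + z • A)} :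
      Submodule ℂ (Fin n → ℂ)) ≤ ρ i + (if i ≤ p then 1 else 0)) ∨
    ∀ i, finrank ℂ (cs w i J ⊔ Submodule.span ℂ {trc i A} :
      Submodule ℂ (Fin n → ℂ)) ≤ ρ i + (if i ≤ p then 1 else 0) := by
  classical
  -- a vector which lies in the span from the first critical row on is good
  have key : ∀ y : Fin n → ℂ, (∀ i, cs w i J ⊔ Submodule.span ℂ {trc i y} ≤
      cs w i J ⊔ Submodule.span ℂ {trc i A} ⊔ Submodule.span ℂ {trc i B}) →
      (∀ i, p < i → i ≤ q → finrank ℂ (cs w i J) = ρ i → trc i y ∈ cs w i J) →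
      ∀ i, finrank ℂ (cs w i J ⊔ Submodule.span ℂ {trc i y} :
        Submodule ℂ (Fin n → ℂ)) ≤ ρ i + (if i ≤ p then 1 else 0) := by
    intro y hy hmem i
    by_cases hip : i ≤ p
    · rw [if_pos hip]
      exact (finrank_sup_span _ _).trans (Nat.add_le_add_right (hU i) 1)
    · rw [if_neg hip, add_zero]
      by_cases hiq : i ≤ q
      · by_cases he : finrank ℂ (cs w i J) = ρ i
        · rw [sup_span_of_mem (hmem i (not_le.1 hip) hiq he)]
          exact he.le
        · have h1 := finrank_sup_span (cs w i J) (trc i y)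
          have h2 := hU i
          omega
      · have h1 := Submodule.finrank_mono (hy i)
        have h2 := hAB i
        rw [if_neg hip, if_neg hiq] at h2
        omega
  have hsubA : ∀ i, cs w i J ⊔ Submodule.span ℂ {trc i A} ≤
      cs w i J ⊔ Submodule.span ℂ {trc i A} ⊔ Submodule.span ℂ {trc i B} :=
    fun i => le_sup_left
  have hsubB : ∀ z : ℂ, ∀ i, cs w i J ⊔ Submodule.span ℂ {trc i (B + z • A)} ≤
      cs w i J ⊔ Submodule.span ℂ {trc i A} ⊔ Submodule.span ℂ {trc i B} := by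
    intro z i
    refine sup_le (le_sup_of_le_left le_sup_left) ?_
    rw [Submodule.span_singleton_le_iff_mem, map_add, map_smul]
    refine Submodule.add_mem _ ?_ (Submodule.smul_mem _ _ ?_)
    · exact Submodule.mem_sup_right (Submodule.mem_span_singleton_self _)
    · exact Submodule.mem_sup_left (Submodule.mem_sup_right
        (Submodule.mem_span_singleton_self _))
  by_cases hex : ∃ i, p < i ∧ i ≤ q ∧ finrank ℂ (cs w i J) = ρ i
  · obtain ⟨i₀, hi₀, hmin⟩ := WellFounded.has_min (wellFounded_lt (α := Fin n))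
      {i | p < i ∧ i ≤ q ∧ finrank ℂ (cs w i J) = ρ i} hex
    obtain ⟨hp, hq, he⟩ := hi₀
    have h1 := hAB i₀
    rw [if_neg (not_le.2 hp), if_pos hq, add_zero, ← he] at h1
    have hup : ∀ y : Fin n → ℂ, trc i₀ y ∈ cs w i₀ J → ∀ i, p < i → i ≤ q →
        finrank ℂ (cs w i J) = ρ i → trc i y ∈ cs w i J := by
      intro y hy i hi hi' he'
      have hle : i₀ ≤ i := not_lt.1 fun hlt => hmin i ⟨hi, hi', he'⟩ hlt
      rw [← cs_map w hle, ← trc_trc hle]
      exact Submodule.mem_map_of_mem hy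
    rcases two_vec h1 with h2 | ⟨z, h2⟩
    · exact Or.inr (key A hsubA (hup A h2))
    · refine Or.inl ⟨z, key _ (hsubB z) (hup _ ?_)⟩
      rw [map_add, map_smul]
      exact h2
  · refine Or.inl ⟨0, key _ (hsubB 0) fun i hi hi' he => absurd ⟨i, hi, hi', he⟩ hex⟩

end Pool.Agent.H78.KL
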